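import Mathlib

set_option autoImplicit false

namespace Pool.Agent.H51.Skew

/-- The skew product `F(z₁, w) = (z₁ ^ d, G_{z₁}(w))` on `ℂ × ℂ²`. -/
def skew (d : ℕ) (G : ℂ → ℂ × ℂ → ℂ × ℂ) (z : ℂ × (ℂ × ℂ)) : ℂ × (ℂ × ℂ) :=
  (z.1 ^ d, G z.1 z.2)

/-- The stable manifold `Σˢ(p)` of `p = (p₁, 0)`, taken in the fibre over `p₁` and
identified with a subset of `ℂ²`. -/
def stableSet (d : ℕ) (G : ℂ → ℂ × ℂ → ℂ × ℂ) (p₁ : ℂ) : Set (ℂ × ℂ) :=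
  {w | Filter.Tendsto
    (fun n : ℕ => ‖(skew d G)^[n] (p₁, w) - (skew d G)^[n] (p₁, 0)‖) Filter.atTop (nhds 0)}

/-- `g` is a holomorphic automorphism of `ℂ²`. -/
def IsHolAut (g : ℂ × ℂ → ℂ × ℂ) : Prop :=
  ∃ h : ℂ × ℂ → ℂ × ℂ, Differentiable ℂ g ∧ Differentiable ℂ h ∧
    Function.LeftInverse h g ∧ Function.RightInverse h g

end Pool.Agent.H51.Skew
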