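import Pool.Agent.H51.Skew.Defs

set_option autoImplicit false

open Filter Topology

namespace Pool.Agent.H51.Skew

/-- No injective holomorphic map from `ℂ²` to `ℂ`. -/
theorem no_inj (f : ℂ × ℂ → ℂ) (hf : Differentiable ℂ f) : ¬ Function.Injective f := by
  intro hinj
  have hg : Differentiable ℂ (fun z : ℂ => f (z, 0)) :=
    hf.comp (differentiable_id.prodMk (differentiable_const _))
  have hga : AnalyticOnNhd ℂ (fun z : ℂ => f (z, 0)) Set.univ := hg.differentiableOn.analyticOnNhd isOpen_univ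
  rcases (hga 0 (Set.mem_univ _)).eventually_constant_or_nhds_le_map_nhds with h | h
  · -- constant near 0
    have h1 : ∀ᶠ z : ℂ in 𝓝 0, z = 0 := by
      filter_upwards [h] with z hz
      have := hinj hz
      exact congrArg Prod.fst this
    have h2 : ∀ᶠ z : ℂ in 𝓝[≠] 0, z = 0 := h1.filter_mono nhdsWithin_le_nhds
    have h3 : ∀ᶠ z : ℂ in 𝓝[≠] 0, z ≠ 0 := eventually_mem_nhdsWithin
    obtain ⟨z, hz⟩ := (h2.and h3).exists
    exact hz.2 hz.1
  · -- open
    have hc : Tendsto (fun w : ℂ => f (0, w)) (𝓝 0) (𝓝 (f (0, 0))) := by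
      have : Continuous (fun w : ℂ => f (0, w)) :=
        hf.continuous.comp (continuous_const.prodMk continuous_id)
      exact this.tendsto 0
    have h4 : Set.range (fun z : ℂ => f (z, 0)) ∈ 𝓝 (f (0, 0)) := by
      apply h
      exact Filter.mem_map.2 (Filter.univ_mem' fun z => ⟨z, rfl⟩)
    have h5 : ∀ᶠ w : ℂ in 𝓝 0, ∃ z : ℂ, f (z, 0) = f (0, w) := hc h4
    have h6 : ∀ᶠ w : ℂ in 𝓝 0, w = 0 := by
      filter_upwards [h5] with w hw
      obtain ⟨z, hz⟩ := hw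
      have := hinj hz
      exact (congrArg Prod.snd this).symm
    have h2 : ∀ᶠ z : ℂ in 𝓝[≠] 0, z = 0 := h6.filter_mono nhdsWithin_le_nhds
    have h3 : ∀ᶠ z : ℂ in 𝓝[≠] 0, z ≠ 0 := eventually_mem_nhdsWithin
    obtain ⟨z, hz⟩ := (h2.and h3).exists
    exact hz.2 hz.1

/-- The fibre maps. -/
noncomputable def G (K : ℂ) (z : ℂ) (w : ℂ × ℂ) : ℂ × ℂ :=
  (Complex.exp (K * z) * w.2, Complex.exp (-(K * z)) * w.1 / 2)

theorem G_joint (K : ℂ) : Differentiable ℂ (fun z : ℂ × (ℂ × ℂ) => G K z.1 z.2) := by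
  unfold G
  fun_prop

theorem G_zero (K z : ℂ) : G K z 0 = 0 := by simp [G]

theorem G_G (K z : ℂ) (w : ℂ × ℂ) : G K z (G K z w) = (1 / 2 : ℂ) • w := by
  unfold G
  ext
  · simp only [Prod.smul_fst, smul_eq_mul]
    have : Complex.exp (K * z) * Complex.exp (-(K * z)) = 1 := by
      rw [← Complex.exp_add]; simp
    linear_combination (w.1 / 2) * this
  · simp only [Prod.smul_snd, smul_eq_mul]
    have : Complex.exp (K * z) * Complex.exp (-(K * z)) = 1 := by
      rw [← Complex.exp_add]; simp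
    linear_combination (w.2 / 2) * this

theorem G_diff (K z : ℂ) : Differentiable ℂ (G K z) := by
  unfold G
  fun_prop

theorem G_smul (K z : ℂ) (c : ℂ) (w : ℂ × ℂ) : G K z (c • w) = c • G K z w := by
  unfold G
  ext
  · simp only [Prod.smul_fst, Prod.smul_snd, smul_eq_mul]; ring
  · simp only [Prod.smul_fst, Prod.smul_snd, smul_eq_mul]; ring

theorem G_aut (K z : ℂ) : IsHolAut (G K z) := by
  refine ⟨fun w => (2 : ℂ) • G K z w, G_diff K z, (G_diff K z).fun_const_smul _, ?_, ?_⟩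
  · intro w
    show (2 : ℂ) • G K z (G K z w) = w
    rw [G_G, smul_smul]; norm_num
  · intro w
    show G K z ((2 : ℂ) • G K z w) = w
    rw [G_smul, G_G, smul_smul]; norm_num

/-- The fibre map as a continuous linear map. -/
noncomputable def Glin (K z : ℂ) : (ℂ × ℂ) →L[ℂ] (ℂ × ℂ) :=
  (Complex.exp (K * z) • ContinuousLinearMap.snd ℂ ℂ ℂ).prod
    ((Complex.exp (-(K * z)) / 2) • ContinuousLinearMap.fst ℂ ℂ ℂ)

theorem Glin_apply (K z : ℂ) (w : ℂ × ℂ) : Glin K z w = G K z w := by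
  unfold Glin G
  ext
  · simp
  · simp; ring

theorem fderiv_G (K z : ℂ) (w : ℂ × ℂ) : fderiv ℂ (G K z) w = Glin K z := by
  have : G K z = fun w => Glin K z w := by
    funext w; exact (Glin_apply K z w).symm
  rw [this]
  exact (Glin K z).fderiv

theorem eig_G (K z : ℂ) (μ : ℂ)
    (h : Module.End.HasEigenvalue ((fderiv ℂ (G K z) 0 : (ℂ × ℂ) →L[ℂ] (ℂ × ℂ)) :
      (ℂ × ℂ) →ₗ[ℂ] (ℂ × ℂ)) μ) : μ ^ 2 = 1 / 2 := by
  obtain ⟨v, hv⟩ := h.exists_hasEigenvector
  have h1 := hv.apply_eq_smul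
  have h1' : G K z v = μ • v := by
    rw [← h1, fderiv_G]
    exact (Glin_apply K z v).symm
  have h2 : G K z (G K z v) = (μ ^ 2) • v := by
    rw [h1', G_smul, h1', smul_smul, sq]
  rw [G_G] at h2
  have h3 : (μ ^ 2 - 1 / 2 : ℂ) • v = 0 := by
    rw [sub_smul, ← h2, sub_self]
  rcases smul_eq_zero.1 h3 with h4 | h4
  · exact sub_eq_zero.1 h4
  · exact absurd h4 hv.2

theorem eig_norm (K z : ℂ) (μ : ℂ)
    (h : Module.End.HasEigenvalue ((fderiv ℂ (G K z) 0 : (ℂ × ℂ) →L[ℂ] (ℂ × ℂ)) :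
      (ℂ × ℂ) →ₗ[ℂ] (ℂ × ℂ)) μ) : ‖μ‖ ^ 2 = 1 / 2 := by
  have := eig_G K z μ h
  have h2 := congrArg norm this
  rw [norm_pow] at h2
  rw [h2]; simp

/-! The orbit. -/

theorem skew_iter_zero (d : ℕ) (K p : ℂ) (n : ℕ) :
    (skew d (G K))^[n] (p, 0) = (p ^ d ^ n, 0) := by
  induction n with
  | zero => simp
  | succ n ih =>
    rw [Function.iterate_succ_apply', ih]
    unfold skew
    simp only [G_zero]
    rw [← pow_mul, ← pow_succ]

theorem skew_iter_fst (d : ℕ) (K p : ℂ) (w : ℂ × ℂ) (n : ℕ) :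
    ((skew d (G K))^[n] (p, w)).1 = p ^ d ^ n := by
  induction n with
  | zero => simp
  | succ n ih =>
    rw [Function.iterate_succ_apply']
    show ((skew d (G K))^[n] (p, w)).1 ^ d = _
    rw [ih, ← pow_mul, ← pow_succ]

theorem norm_diff (d : ℕ) (K p : ℂ) (w : ℂ × ℂ) (n : ℕ) :
    ‖(skew d (G K))^[n] (p, w) - (skew d (G K))^[n] (p, 0)‖
      = ‖((skew d (G K))^[n] (p, w)).2‖ := by
  rw [skew_iter_zero]
  have h1 := skew_iter_fst d K p w n
  rw [Prod.norm_def]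
  simp [h1]

theorem mem_stable_iff (d : ℕ) (K p : ℂ) (w : ℂ × ℂ) :
    w ∈ stableSet d (G K) p ↔
      Tendsto (fun n : ℕ => ((skew d (G K))^[n] (p, w)).2) atTop (𝓝 0) := by
  unfold stableSet
  simp only [Set.mem_ofPred_eq, norm_diff]
  exact tendsto_zero_iff_norm_tendsto_zero.symm

theorem mem_stable_step (d : ℕ) (K p : ℂ) (w : ℂ × ℂ) :
    w ∈ stableSet d (G K) p ↔ G K p w ∈ stableSet d (G K) (p ^ d) := by
  rw [mem_stable_iff, mem_stable_iff]
  have : ∀ n : ℕ, (skew d (G K))^[n + 1] (p, w) = (skew d (G K))^[n] (p ^ d, G K p w) := by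
    intro n
    rw [Function.iterate_succ_apply]
    rfl
  constructor
  · intro h
    have h2 := (tendsto_add_atTop_iff_nat 1).2 h
    refine h2.congr (fun n => ?_)
    rw [this]
  · intro h
    rw [← tendsto_add_atTop_iff_nat 1]
    refine h.congr (fun n => ?_)
    rw [this]

/-- The two-step map at the period-two point. -/
theorem two_step (d : ℕ) (K ω : ℂ) (hK : K * (ω ^ d - ω) = Real.log 4) (hω : ω ^ d ^ 2 = ω)
    (w : ℂ × ℂ) :
    skew d (G K) (skew d (G K) (ω, w)) = (ω, (2 * w.1, w.2 / 8)) := by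
  have e1 : Complex.exp (K * ω ^ d) * Complex.exp (-(K * ω)) = 4 := by
    rw [← Complex.exp_add]
    have : K * ω ^ d + -(K * ω) = ((Real.log 4 : ℝ) : ℂ) := by rw [← hK]; ring
    rw [this, ← Complex.ofReal_exp, Real.exp_log (by norm_num)]
    norm_num
  have e2 : Complex.exp (-(K * ω ^ d)) * Complex.exp (K * ω) = 1 / 4 := by
    have h : Complex.exp (-(K * ω ^ d)) * Complex.exp (K * ω) *
        (Complex.exp (K * ω ^ d) * Complex.exp (-(K * ω))) = 1 := by
      rw [← Complex.exp_add, ← Complex.exp_add, ← Complex.exp_add]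
      have : -(K * ω ^ d) + K * ω + (K * ω ^ d + -(K * ω)) = 0 := by ring
      rw [this, Complex.exp_zero]
    rw [e1] at h
    field_simp
    linear_combination h
  unfold skew G
  simp only
  ext
  · show (ω ^ d) ^ d = ω
    rw [← pow_mul, ← sq]; exact hω
  · simp only
    linear_combination (w.1 / 2) * e1
  · simp only
    linear_combination (w.2 / 2) * e2

theorem even_iter (d : ℕ) (K ω : ℂ) (hK : K * (ω ^ d - ω) = Real.log 4) (hω : ω ^ d ^ 2 = ω)
    (w : ℂ × ℂ) (n : ℕ) :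
    (skew d (G K))^[2 * n] (ω, w) = (ω, (2 ^ n * w.1, w.2 / 8 ^ n)) := by
  induction n with
  | zero => simp
  | succ n ih =>
    have : 2 * (n + 1) = (2 * n + 1) + 1 := by ring
    rw [this, Function.iterate_succ_apply', Function.iterate_succ_apply', ih,
      two_step d K ω hK hω]
    ext
    · rfl
    · simp only; ring
    · simp only; rw [pow_succ]; field_simp

theorem stable_omega (d : ℕ) (K ω : ℂ) (hK : K * (ω ^ d - ω) = Real.log 4)
    (hω : ω ^ d ^ 2 = ω) : stableSet d (G K) ω = {w | w.1 = 0} := by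
  ext w
  rw [mem_stable_iff]
  simp only [Set.mem_ofPred_eq]
  constructor
  · intro h
    have h2 : Tendsto (fun n : ℕ => ((skew d (G K))^[2 * n] (ω, w)).2) atTop (𝓝 0) :=
      h.comp (tendsto_id.const_mul_atTop' (by norm_num))
    have h3 : Tendsto (fun n : ℕ => ((2 : ℂ) ^ n * w.1)) atTop (𝓝 0) := by
      have h4 := (continuous_fst.tendsto (0 : ℂ × ℂ)).comp h2
      refine h4.congr (fun n => ?_)
      simp only [Function.comp]
      rw [even_iter d K ω hK hω]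
    by_contra hw
    have h5 : Tendsto (fun n : ℕ => ‖(2 : ℂ) ^ n * w.1‖) atTop (𝓝 0) := by
      simpa using h3.norm
    have h6 : ∀ n : ℕ, ‖w.1‖ ≤ ‖(2 : ℂ) ^ n * w.1‖ := by
      intro n
      rw [norm_mul, norm_pow]
      have : (1 : ℝ) ≤ ‖(2 : ℂ)‖ ^ n := one_le_pow₀ (by norm_num)
      nlinarith [norm_nonneg w.1]
    have h7 : ‖w.1‖ ≤ 0 := ge_of_tendsto' h5 h6
    exact hw (norm_le_zero_iff.1 h7)
  · intro hw
    have hev : Tendsto (fun n : ℕ => ((skew d (G K))^[2 * n] (ω, w)).2) atTop (𝓝 0) := by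
      have : ∀ n : ℕ, ((skew d (G K))^[2 * n] (ω, w)).2 = (0, w.2 * (1 / 8 : ℂ) ^ n) := by
        intro n
        rw [even_iter d K ω hK hω, hw]
        ext
        · simp
        · simp only; rw [one_div, inv_pow]; rfl
      simp_rw [this]
      have h0 : Tendsto (fun n : ℕ => w.2 * (1 / 8 : ℂ) ^ n) atTop (𝓝 (w.2 * 0)) :=
        (tendsto_pow_atTop_nhds_zero_of_norm_lt_one (by simp; norm_num)).const_mul _
      rw [mul_zero] at h0
      exact (tendsto_const_nhds (x := (0 : ℂ))).prodMk_nhds h0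
    have hodd : Tendsto (fun n : ℕ => ((skew d (G K))^[2 * n + 1] (ω, w)).2) atTop (𝓝 0) := by
      have h1 : ∀ n : ℕ, ((skew d (G K))^[2 * n + 1] (ω, w)).2
          = G K ω ((skew d (G K))^[2 * n] (ω, w)).2 := by
        intro n
        rw [Function.iterate_succ_apply']
        have : ((skew d (G K))^[2 * n] (ω, w)).1 = ω := by
          rw [even_iter d K ω hK hω]
        show G K ((skew d (G K))^[2 * n] (ω, w)).1 _ = _
        rw [this]
      simp_rw [h1]
      have hc : Tendsto (G K ω) (𝓝 0) (𝓝 (G K ω 0)) := (G_diff K ω).continuous.tendsto 0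
      rw [G_zero] at hc
      exact hc.comp hev
    -- combine
    rw [Metric.tendsto_atTop] at hev hodd ⊢
    intro ε hε
    obtain ⟨N1, h1⟩ := hev ε hε
    obtain ⟨N2, h2⟩ := hodd ε hε
    refine ⟨2 * (N1 + N2) + 2, fun n hn => ?_⟩
    rcases Nat.even_or_odd' n with ⟨k, hk | hk⟩
    · subst hk; exact h1 k (by omega)
    · subst hk; exact h2 k (by omega)

theorem stable_pre (d : ℕ) (K ω : ℂ) (hK : K * (ω ^ d - ω) = Real.log 4)
    (hω : ω ^ d ^ 2 = ω) (m : ℕ) : ∀ p : ℂ, p ^ d ^ m = ω →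
    stableSet d (G K) p = {w | w.1 = 0} ∨ stableSet d (G K) p = {w | w.2 = 0} := by
  induction m with
  | zero =>
    intro p hp
    rw [pow_zero, pow_one] at hp
    subst hp
    exact Or.inl (stable_omega d K p hK hω)
  | succ m ih =>
    intro p hp
    have hp' : (p ^ d) ^ d ^ m = ω := by
      rw [← pow_mul, ← pow_succ']; exact hp
    have key := ih (p ^ d) hp'
    have hstep : ∀ w, w ∈ stableSet d (G K) p ↔ G K p w ∈ stableSet d (G K) (p ^ d) :=
      mem_stable_step d K p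
    rcases key with h | h
    · right
      ext w
      rw [hstep, h]
      simp [G, Complex.exp_ne_zero]
    · left
      ext w
      rw [hstep, h]
      simp [G, Complex.exp_ne_zero]

theorem no_inj_of_axis (S : Set (ℂ × ℂ)) (h : S = {w | w.1 = 0} ∨ S = {w | w.2 = 0}) :
    ¬ ∃ φ : ℂ × ℂ → ℂ × ℂ, Differentiable ℂ φ ∧ Function.Injective φ ∧ ∀ x, φ x ∈ S := by
  rintro ⟨φ, hd, hi, hS⟩
  rcases h with h | h
  · refine no_inj (fun x => (φ x).2) (differentiable_snd.comp hd) ?_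
    intro x y hxy
    apply hi
    have hx := hS x
    have hy := hS y
    rw [h] at hx hy
    exact Prod.ext (hx.trans hy.symm) hxy
  · refine no_inj (fun x => (φ x).1) (differentiable_fst.comp hd) ?_
    intro x y hxy
    apply hi
    have hx := hS x
    have hy := hS y
    rw [h] at hx hy
    exact Prod.ext hxy (hx.trans hy.symm)

/-- Backward orbits of a point of the circle are dense. -/
theorem dense_pre (d : ℕ) (hd : 2 ≤ d) (θ₀ : ℝ) (q : ℂ) (hq : ‖q‖ = 1) (ε : ℝ) (hε : 0 < ε) :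
    ∃ (m : ℕ) (p : ℂ), ‖p‖ = 1 ∧ ‖p - q‖ < ε ∧ p ^ d ^ m = Complex.exp (θ₀ * Complex.I) := by
  obtain ⟨θ, hθ⟩ : ∃ θ : ℝ, Complex.exp (θ * Complex.I) = q := by
    refine ⟨Complex.arg q, ?_⟩
    have := Complex.norm_mul_exp_arg_mul_I q
    rw [hq] at this
    simpa using this
  obtain ⟨m, hm⟩ : ∃ m : ℕ, 2 * Real.pi / ε < (d : ℝ) ^ m :=
    pow_unbounded_of_one_lt _ (by exact_mod_cast hd)
  have hdpos : (0 : ℝ) < (d : ℝ) ^ m := by positivity
  set k : ℤ := ⌊((d : ℝ) ^ m * θ - θ₀) / (2 * Real.pi)⌋ with hk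
  have hpi : 0 < 2 * Real.pi := by positivity
  have hk1 : (k : ℝ) ≤ ((d : ℝ) ^ m * θ - θ₀) / (2 * Real.pi) := Int.floor_le _
  have hk2 : ((d : ℝ) ^ m * θ - θ₀) / (2 * Real.pi) < k + 1 := Int.lt_floor_add_one _
  rw [le_div_iff₀ hpi] at hk1
  rw [div_lt_iff₀ hpi] at hk2
  set φ : ℝ := (θ₀ + 2 * Real.pi * k) / (d : ℝ) ^ m with hφ
  refine ⟨m, Complex.exp (φ * Complex.I), Complex.norm_exp_ofReal_mul_I φ, ?_, ?_⟩
  · rw [← hθ]
    have h1 : Complex.exp (φ * Complex.I) - Complex.exp (θ * Complex.I)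
        = Complex.exp (θ * Complex.I) * (Complex.exp (Complex.I * ((φ - θ : ℝ) : ℂ)) - 1) := by
      rw [mul_sub, ← Complex.exp_add, mul_one]
      congr 2
      push_cast
      ring
    rw [h1, norm_mul, Complex.norm_exp_ofReal_mul_I, one_mul]
    have h2 := Real.norm_exp_I_mul_ofReal_sub_one_le (x := φ - θ)
    refine lt_of_le_of_lt h2 ?_
    rw [Real.norm_eq_abs]
    have h3 : |φ - θ| ≤ 2 * Real.pi / (d : ℝ) ^ m := by
      have : φ - θ = (θ₀ + 2 * Real.pi * k - (d : ℝ) ^ m * θ) / (d : ℝ) ^ m := by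
        rw [hφ]; field_simp
      rw [this, abs_div, abs_of_pos hdpos]
      gcongr
      rw [abs_le]
      constructor <;> nlinarith
    refine lt_of_le_of_lt h3 ?_
    rw [div_lt_iff₀ hdpos]
    rw [div_lt_iff₀ hε] at hm
    linarith
  · rw [← Complex.exp_nat_mul]
    have hne : ((d : ℂ) ^ m) ≠ 0 := by
      have : (d : ℝ) ^ m ≠ 0 := hdpos.ne'
      exact_mod_cast this
    have : ((d ^ m : ℕ) : ℂ) * ((φ : ℂ) * Complex.I)
        = (θ₀ : ℂ) * Complex.I + k * (2 * Real.pi * Complex.I) := by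
      rw [hφ]
      push_cast
      field_simp
    rw [this, Complex.exp_add, Complex.exp_int_mul_two_pi_mul_I, mul_one]

theorem main (d : ℕ) (hd : 2 ≤ d) :
    ∃ G : ℂ → ℂ × ℂ → ℂ × ℂ,
      Differentiable ℂ (fun z : ℂ × (ℂ × ℂ) => G z.1 z.2) ∧
      (∀ l : ℂ, IsHolAut (G l) ∧ G l 0 = 0 ∧
        ∀ μ : ℂ, Module.End.HasEigenvalue
          ((fderiv ℂ (G l) 0 : (ℂ × ℂ) →L[ℂ] (ℂ × ℂ)) : (ℂ × ℂ) →ₗ[ℂ] (ℂ × ℂ)) μ →
            ‖μ‖ ^ 2 = 1 / 2) ∧
      ∀ q : ℂ, ‖q‖ = 1 → ∀ ε : ℝ, 0 < ε → ∃ p₁ : ℂ, ‖p₁‖ = 1 ∧ ‖p₁ - q‖ < ε ∧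
        (stableSet d G p₁ = {w | w.1 = 0} ∨ stableSet d G p₁ = {w | w.2 = 0}) ∧
        ¬ ∃ φ : ℂ × ℂ → ℂ × ℂ, Differentiable ℂ φ ∧ Function.Injective φ ∧
          ∀ x, φ x ∈ stableSet d G p₁ := by
  set θ₀ : ℝ := 2 * Real.pi / ((d ^ 2 - 1 : ℕ) : ℝ) with hθ₀
  set ω : ℂ := Complex.exp (θ₀ * Complex.I) with hωdef
  have hd2 : 0 < d ^ 2 - 1 := by
    have : 2 ^ 2 ≤ d ^ 2 := Nat.pow_le_pow_left hd 2
    omega
  have hprim : IsPrimitiveRoot ω (d ^ 2 - 1) := by
    have := Complex.isPrimitiveRoot_exp (d ^ 2 - 1) hd2.ne'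
    convert this using 1
    rw [hωdef, hθ₀]
    congr 1
    push_cast
    ring
  have hω1 : ω ^ d ^ 2 = ω := by
    have h1 : d ^ 2 = (d ^ 2 - 1) + 1 := by omega
    rw [h1, pow_succ]
    have : ω ^ (d ^ 2 - 1) = 1 := hprim.pow_eq_one
    rw [this, one_mul]
  have hω0 : ω ≠ 0 := Complex.exp_ne_zero _
  have hω2 : ω ^ d - ω ≠ 0 := by
    intro h
    have h1 : ω ^ (d - 1) = 1 := by
      have h2 : ω ^ d = ω := sub_eq_zero.1 h
      have h3 : d = (d - 1) + 1 := by omega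
      rw [h3, pow_succ] at h2
      exact mul_right_cancel₀ hω0 (by rw [h2, one_mul])
    have h4 := hprim.dvd_of_pow_eq_one (d - 1) h1
    have h5 := Nat.le_of_dvd (by omega) h4
    have h6 : d * 2 ≤ d * d := Nat.mul_le_mul_left d hd
    have h7 : d ^ 2 = d * d := sq d
    omega
  set K : ℂ := (Real.log 4 : ℝ) / (ω ^ d - ω) with hKdef
  have hK : K * (ω ^ d - ω) = (Real.log 4 : ℝ) := by
    rw [hKdef]; field_simp
  refine ⟨G K, G_joint K, fun l => ⟨G_aut K l, G_zero K l, fun μ hμ => eig_norm K l μ hμ⟩, ?_⟩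
  intro q hq ε hε
  obtain ⟨m, p, hp1, hp2, hp3⟩ := dense_pre d hd θ₀ q hq ε hε
  have := stable_pre d K ω hK hω1 m p hp3
  exact ⟨p, hp1, hp2, this, no_inj_of_axis _ this⟩

end Pool.Agent.H51.Skew
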