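import Pool.Agent.H51.Skew.Main

set_option autoImplicit false

open Filter Topology

namespace Pool.Agent.H51.SkewR

open Pool.Agent.H51.Skew (skew stableSet IsHolAut no_inj_of_axis dense_pre)

/-- The fibre maps. -/
noncomputable def G (r : ℝ) (K : ℂ) (z : ℂ) (w : ℂ × ℂ) : ℂ × ℂ :=
  ((r : ℂ) * Complex.exp (K * z) * w.2, (r : ℂ) * Complex.exp (-(K * z)) * w.1)

theorem G_joint (r : ℝ) (K : ℂ) : Differentiable ℂ (fun z : ℂ × (ℂ × ℂ) => G r K z.1 z.2) := by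
  unfold G
  fun_prop

theorem G_zero (r : ℝ) (K z : ℂ) : G r K z 0 = 0 := by simp [G]

theorem G_G (r : ℝ) (K z : ℂ) (w : ℂ × ℂ) : G r K z (G r K z w) = ((r : ℂ) ^ 2) • w := by
  unfold G
  have : Complex.exp (K * z) * Complex.exp (-(K * z)) = 1 := by
    rw [← Complex.exp_add]; simp
  ext
  · simp only [Prod.smul_fst, smul_eq_mul]
    linear_combination ((r : ℂ) ^ 2 * w.1) * this
  · simp only [Prod.smul_snd, smul_eq_mul]
    linear_combination ((r : ℂ) ^ 2 * w.2) * this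

theorem G_diff (r : ℝ) (K z : ℂ) : Differentiable ℂ (G r K z) := by
  unfold G
  fun_prop

theorem G_smul (r : ℝ) (K z : ℂ) (c : ℂ) (w : ℂ × ℂ) : G r K z (c • w) = c • G r K z w := by
  unfold G
  ext
  · simp only [Prod.smul_fst, Prod.smul_snd, smul_eq_mul]; ring
  · simp only [Prod.smul_fst, Prod.smul_snd, smul_eq_mul]; ring

theorem G_aut (r : ℝ) (hr : 0 < r) (K z : ℂ) : IsHolAut (G r K z) := by
  have hc : ((r : ℂ) ^ 2) ≠ 0 := pow_ne_zero _ (by exact_mod_cast hr.ne')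
  refine ⟨fun w => (((r : ℂ) ^ 2)⁻¹) • G r K z w, G_diff r K z,
    (G_diff r K z).fun_const_smul _, ?_, ?_⟩
  · intro w
    show (((r : ℂ) ^ 2)⁻¹) • G r K z (G r K z w) = w
    rw [G_G, smul_smul, inv_mul_cancel₀ hc, one_smul]
  · intro w
    show G r K z ((((r : ℂ) ^ 2)⁻¹) • G r K z w) = w
    rw [G_smul, G_G, smul_smul, inv_mul_cancel₀ hc, one_smul]

/-- The fibre map as a continuous linear map. -/
noncomputable def Glin (r : ℝ) (K z : ℂ) : (ℂ × ℂ) →L[ℂ] (ℂ × ℂ) :=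
  (((r : ℂ) * Complex.exp (K * z)) • ContinuousLinearMap.snd ℂ ℂ ℂ).prod
    (((r : ℂ) * Complex.exp (-(K * z))) • ContinuousLinearMap.fst ℂ ℂ ℂ)

theorem Glin_apply (r : ℝ) (K z : ℂ) (w : ℂ × ℂ) : Glin r K z w = G r K z w := by
  unfold Glin G
  ext
  · simp
  · simp

theorem fderiv_G (r : ℝ) (K z : ℂ) (w : ℂ × ℂ) : fderiv ℂ (G r K z) w = Glin r K z := by
  have : G r K z = fun w => Glin r K z w := by
    funext w; exact (Glin_apply r K z w).symm
  rw [this]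
  exact (Glin r K z).fderiv

theorem eig_G (r : ℝ) (K z : ℂ) (μ : ℂ)
    (h : Module.End.HasEigenvalue ((fderiv ℂ (G r K z) 0 : (ℂ × ℂ) →L[ℂ] (ℂ × ℂ)) :
      (ℂ × ℂ) →ₗ[ℂ] (ℂ × ℂ)) μ) : μ ^ 2 = (r : ℂ) ^ 2 := by
  obtain ⟨v, hv⟩ := h.exists_hasEigenvector
  have h1 := hv.apply_eq_smul
  have h1' : G r K z v = μ • v := by
    rw [← h1, fderiv_G]
    exact (Glin_apply r K z v).symm
  have h2 : G r K z (G r K z v) = (μ ^ 2) • v := by
    rw [h1', G_smul, h1', smul_smul, sq]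
  rw [G_G] at h2
  have h3 : (μ ^ 2 - (r : ℂ) ^ 2 : ℂ) • v = 0 := by
    rw [sub_smul, ← h2, sub_self]
  rcases smul_eq_zero.1 h3 with h4 | h4
  · exact sub_eq_zero.1 h4
  · exact absurd h4 hv.2

theorem eig_norm (r : ℝ) (hr : 0 < r) (K z : ℂ) (μ : ℂ)
    (h : Module.End.HasEigenvalue ((fderiv ℂ (G r K z) 0 : (ℂ × ℂ) →L[ℂ] (ℂ × ℂ)) :
      (ℂ × ℂ) →ₗ[ℂ] (ℂ × ℂ)) μ) : ‖μ‖ = r := by
  have := eig_G r K z μ h
  have h2 := congrArg norm this
  rw [norm_pow, norm_pow, Complex.norm_real, Real.norm_of_nonneg hr.le] at h2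
  exact (sq_eq_sq₀ (norm_nonneg μ) hr.le).1 h2

/-! The orbit. -/

theorem skew_iter_zero (d : ℕ) (r : ℝ) (K p : ℂ) (n : ℕ) :
    (skew d (G r K))^[n] (p, 0) = (p ^ d ^ n, 0) := by
  induction n with
  | zero => simp
  | succ n ih =>
    rw [Function.iterate_succ_apply', ih]
    unfold skew
    simp only [G_zero]
    rw [← pow_mul, ← pow_succ]

theorem skew_iter_fst (d : ℕ) (r : ℝ) (K p : ℂ) (w : ℂ × ℂ) (n : ℕ) :
    ((skew d (G r K))^[n] (p, w)).1 = p ^ d ^ n := by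
  induction n with
  | zero => simp
  | succ n ih =>
    rw [Function.iterate_succ_apply']
    show ((skew d (G r K))^[n] (p, w)).1 ^ d = _
    rw [ih, ← pow_mul, ← pow_succ]

theorem norm_diff (d : ℕ) (r : ℝ) (K p : ℂ) (w : ℂ × ℂ) (n : ℕ) :
    ‖(skew d (G r K))^[n] (p, w) - (skew d (G r K))^[n] (p, 0)‖
      = ‖((skew d (G r K))^[n] (p, w)).2‖ := by
  rw [skew_iter_zero]
  have h1 := skew_iter_fst d r K p w n
  rw [Prod.norm_def]
  simp [h1]

theorem mem_stable_iff (d : ℕ) (r : ℝ) (K p : ℂ) (w : ℂ × ℂ) :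
    w ∈ stableSet d (G r K) p ↔
      Tendsto (fun n : ℕ => ((skew d (G r K))^[n] (p, w)).2) atTop (𝓝 0) := by
  unfold stableSet
  simp only [Set.mem_ofPred_eq, norm_diff]
  exact tendsto_zero_iff_norm_tendsto_zero.symm

theorem mem_stable_step (d : ℕ) (r : ℝ) (K p : ℂ) (w : ℂ × ℂ) :
    w ∈ stableSet d (G r K) p ↔ G r K p w ∈ stableSet d (G r K) (p ^ d) := by
  rw [mem_stable_iff, mem_stable_iff]
  have : ∀ n : ℕ, (skew d (G r K))^[n + 1] (p, w) = (skew d (G r K))^[n] (p ^ d, G r K p w) := by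
    intro n
    rw [Function.iterate_succ_apply]
    rfl
  constructor
  · intro h
    have h2 := (tendsto_add_atTop_iff_nat 1).2 h
    refine h2.congr (fun n => ?_)
    rw [this]
  · intro h
    rw [← tendsto_add_atTop_iff_nat 1]
    refine h.congr (fun n => ?_)
    rw [this]

/-- The two-step map at the period-two point. -/
theorem two_step (d : ℕ) (r : ℝ) (hr : 0 < r) (K ω : ℂ)
    (hK : K * (ω ^ d - ω) = ((Real.log (2 / r ^ 2) : ℝ) : ℂ)) (hω : ω ^ d ^ 2 = ω)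
    (w : ℂ × ℂ) :
    skew d (G r K) (skew d (G r K) (ω, w)) = (ω, (2 * w.1, (r : ℂ) ^ 4 / 2 * w.2)) := by
  have hc : (r : ℂ) ≠ 0 := by exact_mod_cast hr.ne'
  have e1 : (r : ℂ) ^ 2 * (Complex.exp (K * ω ^ d) * Complex.exp (-(K * ω))) = 2 := by
    rw [← Complex.exp_add]
    have : K * ω ^ d + -(K * ω) = ((Real.log (2 / r ^ 2) : ℝ) : ℂ) := by rw [← hK]; ring
    rw [this, ← Complex.ofReal_exp, Real.exp_log (by positivity)]
    push_cast
    field_simp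
  have e2 : Complex.exp (-(K * ω ^ d)) * Complex.exp (K * ω) = (r : ℂ) ^ 2 / 2 := by
    have h : Complex.exp (-(K * ω ^ d)) * Complex.exp (K * ω) *
        (Complex.exp (K * ω ^ d) * Complex.exp (-(K * ω))) = 1 := by
      rw [← Complex.exp_add, ← Complex.exp_add, ← Complex.exp_add]
      have : -(K * ω ^ d) + K * ω + (K * ω ^ d + -(K * ω)) = 0 := by ring
      rw [this, Complex.exp_zero]
    linear_combination ((r : ℂ) ^ 2 / 2) * h -
      (Complex.exp (-(K * ω ^ d)) * Complex.exp (K * ω) / 2) * e1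
  unfold skew G
  simp only
  ext
  · show (ω ^ d) ^ d = ω
    rw [← pow_mul, ← sq]; exact hω
  · simp only
    linear_combination w.1 * e1
  · simp only
    linear_combination ((r : ℂ) ^ 2 * w.2) * e2

theorem even_iter (d : ℕ) (r : ℝ) (hr : 0 < r) (K ω : ℂ)
    (hK : K * (ω ^ d - ω) = ((Real.log (2 / r ^ 2) : ℝ) : ℂ)) (hω : ω ^ d ^ 2 = ω)
    (w : ℂ × ℂ) (n : ℕ) :
    (skew d (G r K))^[2 * n] (ω, w) = (ω, (2 ^ n * w.1, ((r : ℂ) ^ 4 / 2) ^ n * w.2)) := by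
  induction n with
  | zero => simp
  | succ n ih =>
    have : 2 * (n + 1) = (2 * n + 1) + 1 := by ring
    rw [this, Function.iterate_succ_apply', Function.iterate_succ_apply', ih,
      two_step d r hr K ω hK hω]
    ext
    · rfl
    · simp only; ring
    · simp only; ring

theorem stable_omega (d : ℕ) (r : ℝ) (hr : 0 < r) (hr1 : r < 1) (K ω : ℂ)
    (hK : K * (ω ^ d - ω) = ((Real.log (2 / r ^ 2) : ℝ) : ℂ))
    (hω : ω ^ d ^ 2 = ω) : stableSet d (G r K) ω = {w | w.1 = 0} := by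
  ext w
  rw [mem_stable_iff]
  simp only [Set.mem_ofPred_eq]
  constructor
  · intro h
    have h2 : Tendsto (fun n : ℕ => ((skew d (G r K))^[2 * n] (ω, w)).2) atTop (𝓝 0) :=
      h.comp (tendsto_id.const_mul_atTop' (by norm_num))
    have h3 : Tendsto (fun n : ℕ => ((2 : ℂ) ^ n * w.1)) atTop (𝓝 0) := by
      have h4 := (continuous_fst.tendsto (0 : ℂ × ℂ)).comp h2
      refine h4.congr (fun n => ?_)
      simp only [Function.comp]
      rw [even_iter d r hr K ω hK hω]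
    by_contra hw
    have h5 : Tendsto (fun n : ℕ => ‖(2 : ℂ) ^ n * w.1‖) atTop (𝓝 0) := by
      simpa using h3.norm
    have h6 : ∀ n : ℕ, ‖w.1‖ ≤ ‖(2 : ℂ) ^ n * w.1‖ := by
      intro n
      rw [norm_mul, norm_pow]
      have : (1 : ℝ) ≤ ‖(2 : ℂ)‖ ^ n := one_le_pow₀ (by norm_num)
      nlinarith [norm_nonneg w.1]
    have h7 : ‖w.1‖ ≤ 0 := ge_of_tendsto' h5 h6
    exact hw (norm_le_zero_iff.1 h7)
  · intro hw
    have hq : ‖((r : ℂ) ^ 4 / 2)‖ < 1 := by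
      rw [norm_div, norm_pow, Complex.norm_real, Real.norm_of_nonneg hr.le]
      have h4 : r ^ 4 ≤ 1 := pow_le_one₀ hr.le hr1.le
      have h5 : ‖(2 : ℂ)‖ = 2 := by norm_num
      rw [h5]
      linarith
    have hev : Tendsto (fun n : ℕ => ((skew d (G r K))^[2 * n] (ω, w)).2) atTop (𝓝 0) := by
      have : ∀ n : ℕ, ((skew d (G r K))^[2 * n] (ω, w)).2
          = (0, ((r : ℂ) ^ 4 / 2) ^ n * w.2) := by
        intro n
        rw [even_iter d r hr K ω hK hω, hw]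
        ext
        · simp
        · rfl
      simp_rw [this]
      have h0 : Tendsto (fun n : ℕ => ((r : ℂ) ^ 4 / 2) ^ n * w.2) atTop (𝓝 (0 * w.2)) :=
        (tendsto_pow_atTop_nhds_zero_of_norm_lt_one hq).mul_const _
      rw [zero_mul] at h0
      exact (tendsto_const_nhds (x := (0 : ℂ))).prodMk_nhds h0
    have hodd : Tendsto (fun n : ℕ => ((skew d (G r K))^[2 * n + 1] (ω, w)).2) atTop (𝓝 0) := by
      have h1 : ∀ n : ℕ, ((skew d (G r K))^[2 * n + 1] (ω, w)).2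
          = G r K ω ((skew d (G r K))^[2 * n] (ω, w)).2 := by
        intro n
        rw [Function.iterate_succ_apply']
        have : ((skew d (G r K))^[2 * n] (ω, w)).1 = ω := by
          rw [even_iter d r hr K ω hK hω]
        show G r K ((skew d (G r K))^[2 * n] (ω, w)).1 _ = _
        rw [this]
      simp_rw [h1]
      have hc : Tendsto (G r K ω) (𝓝 0) (𝓝 (G r K ω 0)) :=
        (G_diff r K ω).continuous.tendsto 0
      rw [G_zero] at hc
      exact hc.comp hev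
    rw [Metric.tendsto_atTop] at hev hodd ⊢
    intro ε hε
    obtain ⟨N1, h1⟩ := hev ε hε
    obtain ⟨N2, h2⟩ := hodd ε hε
    refine ⟨2 * (N1 + N2) + 2, fun n hn => ?_⟩
    rcases Nat.even_or_odd' n with ⟨k, hk | hk⟩
    · subst hk; exact h1 k (by omega)
    · subst hk; exact h2 k (by omega)

theorem stable_pre (d : ℕ) (r : ℝ) (hr : 0 < r) (hr1 : r < 1) (K ω : ℂ)
    (hK : K * (ω ^ d - ω) = ((Real.log (2 / r ^ 2) : ℝ) : ℂ))
    (hω : ω ^ d ^ 2 = ω) (m : ℕ) : ∀ p : ℂ, p ^ d ^ m = ω →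
    stableSet d (G r K) p = {w | w.1 = 0} ∨ stableSet d (G r K) p = {w | w.2 = 0} := by
  have hc : (r : ℂ) ≠ 0 := by exact_mod_cast hr.ne'
  induction m with
  | zero =>
    intro p hp
    rw [pow_zero, pow_one] at hp
    subst hp
    exact Or.inl (stable_omega d r hr hr1 K p hK hω)
  | succ m ih =>
    intro p hp
    have hp' : (p ^ d) ^ d ^ m = ω := by
      rw [← pow_mul, ← pow_succ']; exact hp
    have key := ih (p ^ d) hp'
    have hstep : ∀ w, w ∈ stableSet d (G r K) p ↔ G r K p w ∈ stableSet d (G r K) (p ^ d) :=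
      mem_stable_step d r K p
    rcases key with h | h
    · right
      ext w
      rw [hstep, h]
      simp [G, Complex.exp_ne_zero, hr.ne']
    · left
      ext w
      rw [hstep, h]
      simp [G, Complex.exp_ne_zero, hr.ne']

theorem main (d : ℕ) (hd : 2 ≤ d) (r : ℝ) (hr : 0 < r) (hr1 : r < 1) :
    ∃ G : ℂ → ℂ × ℂ → ℂ × ℂ,
      Differentiable ℂ (fun z : ℂ × (ℂ × ℂ) => G z.1 z.2) ∧
      (∀ l : ℂ, IsHolAut (G l) ∧ G l 0 = 0 ∧
        ∀ μ : ℂ, Module.End.HasEigenvalue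
          ((fderiv ℂ (G l) 0 : (ℂ × ℂ) →L[ℂ] (ℂ × ℂ)) : (ℂ × ℂ) →ₗ[ℂ] (ℂ × ℂ)) μ →
            ‖μ‖ = r) ∧
      ∀ q : ℂ, ‖q‖ = 1 → ∀ ε : ℝ, 0 < ε → ∃ p₁ : ℂ, ‖p₁‖ = 1 ∧ ‖p₁ - q‖ < ε ∧
        (stableSet d G p₁ = {w | w.1 = 0} ∨ stableSet d G p₁ = {w | w.2 = 0}) ∧
        ¬ ∃ φ : ℂ × ℂ → ℂ × ℂ, Differentiable ℂ φ ∧ Function.Injective φ ∧
          ∀ x, φ x ∈ stableSet d G p₁ := by
  set θ₀ : ℝ := 2 * Real.pi / ((d ^ 2 - 1 : ℕ) : ℝ) with hθ₀
  set ω : ℂ := Complex.exp (θ₀ * Complex.I) with hωdef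
  have hd2 : 0 < d ^ 2 - 1 := by
    have : 2 ^ 2 ≤ d ^ 2 := Nat.pow_le_pow_left hd 2
    omega
  have hprim : IsPrimitiveRoot ω (d ^ 2 - 1) := by
    have := Complex.isPrimitiveRoot_exp (d ^ 2 - 1) hd2.ne'
    convert this using 1
    rw [hωdef, hθ₀]
    congr 1
    push_cast
    ring
  have hω1 : ω ^ d ^ 2 = ω := by
    have h1 : d ^ 2 = (d ^ 2 - 1) + 1 := by omega
    rw [h1, pow_succ]
    have : ω ^ (d ^ 2 - 1) = 1 := hprim.pow_eq_one
    rw [this, one_mul]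
  have hω0 : ω ≠ 0 := Complex.exp_ne_zero _
  have hω2 : ω ^ d - ω ≠ 0 := by
    intro h
    have h1 : ω ^ (d - 1) = 1 := by
      have h2 : ω ^ d = ω := sub_eq_zero.1 h
      have h3 : d = (d - 1) + 1 := by omega
      rw [h3, pow_succ] at h2
      exact mul_right_cancel₀ hω0 (by rw [h2, one_mul])
    have h4 := hprim.dvd_of_pow_eq_one (d - 1) h1
    have h5 := Nat.le_of_dvd (by omega) h4
    have h6 : d * 2 ≤ d * d := Nat.mul_le_mul_left d hd
    have h7 : d ^ 2 = d * d := sq d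
    omega
  set K : ℂ := ((Real.log (2 / r ^ 2) : ℝ) : ℂ) / (ω ^ d - ω) with hKdef
  have hK : K * (ω ^ d - ω) = ((Real.log (2 / r ^ 2) : ℝ) : ℂ) := by
    rw [hKdef]; field_simp
  refine ⟨G r K, G_joint r K,
    fun l => ⟨G_aut r hr K l, G_zero r K l, fun μ hμ => eig_norm r hr K l μ hμ⟩, ?_⟩
  intro q hq ε hε
  obtain ⟨m, p, hp1, hp2, hp3⟩ := dense_pre d hd θ₀ q hq ε hε
  have := stable_pre d r hr hr1 K ω hK hω1 m p hp3
  exact ⟨p, hp1, hp2, this, no_inj_of_axis _ this⟩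

end Pool.Agent.H51.SkewR
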